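import Pool.Agent.U309.ZF.Core
import Pool.Agent.U309.ZF.Stm3

set_option autoImplicit false

/-! Project ZF3, package CORE3: not both of two fields have a zero near the edge. -/

open Metric Complex Set NumberField IsDedekindDomain MatrixGroups CongruenceSubgroup Filter Topology
open scoped TensorProduct ComplexConjugate

namespace Pool.Agent.U122.ZF

open Pool.Agent.U309.ZF

/-- the arithmetic of the first step -/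
theorem arith1 {X2 W2 FL2 LD2 S2 S1 W1 C5 cb e : ℝ} (hX : 0 < X2) (h1 : 0 ≤ 2 * W2 + FL2)
    (h2 : |LD2 + FL2| ≤ C5) (h3 : 999 / 1000 * X2 - cb ≤ LD2) (h4 : |W2 - (X2 - S2)| ≤ e)
    (h5 : |W1 - (500 * X2 - S1)| ≤ e) (hS1 : 0 ≤ S1) (hsm : cb + C5 + e ≤ X2 / 1000)
    (hcb : 0 ≤ cb) (hC5 : 0 ≤ C5) (hd : 2 / 3 * X2 ≤ S2 ∨ S1 ≤ 9 * S2) :
    490 * X2 ≤ W1 ∧ W1 ≤ 500 * X2 + e := by
  have a2 := abs_le.1 h2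
  have a4 := abs_le.1 h4
  have a5 := abs_le.1 h5
  have hS2 : S2 ≤ 52 / 100 * X2 := by linarith
  rcases hd with hd | hd
  · exfalso; linarith
  · constructor <;> linarith

/-- the first step for one field -/
theorem step1 (hPI : S_PI) {a b : ℤ} {N : ℕ} [NeZero N]
    {f : CuspForm (Gamma0 N : Subgroup (GL (Fin 2) ℝ)) 2} {w : ℝ} (hf : IsFormOf a b N f w)
    {K : Type} [Field K] [NumberField K] {F : ℂ → ℂ} {C1 C5 CD B η ℒ δ₁ δ₂ : ℝ} (hC1 : 0 < C1)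
    (hC5 : 0 < C5) (hCD : 0 < CD) (hB : 1 ≤ B) (hη : 0 ≤ η) (hℒB : B ≤ ℒ) (hℒK : ld K + 1 ≤ ℒ)
    (hδ₂ : 0 < δ₂) (hδ₂1 : δ₂ ≤ 1) (hδ₁ : δ₁ = δ₂ / 500) (hηδ : η ≤ δ₂ / 100000)
    (hsm : 1000 * ((C1 + C5 + CD) * ℒ) ≤ 1 / δ₂)
    (hE : ∀ δ μ : ℝ, 0 < δ → δ ≤ 1 →
      |(logDeriv F ((3 / 2 + δ : ℝ) + μ * Complex.I)).re + W (fun p => lam f p * pi1 K p) δ μ| ≤ C5)
    (hR : ∀ δ : ℝ, 0 < δ → δ ≤ 1 → 1 / (δ + η) - C1 * B ≤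
      (logDeriv F ((3 / 2 + δ : ℝ) + (0 : ℝ) * Complex.I)).re)
    {S : ℝ → ℝ} (hS0 : ∀ δ : ℝ, 0 < δ → 0 ≤ S δ)
    (hS1 : ∀ δ : ℝ, 0 < δ → δ ≤ 1 → |W (fun p => (pi1 K p : ℝ)) δ 0 - (1 / δ - S δ)| ≤ CD * (ld K + 1))
    (hS2 : ∀ δ₁ δ₂ : ℝ, 0 < δ₁ → δ₁ ≤ δ₂ → δ₂ ≤ 1 → 2 / (3 * δ₂) ≤ S δ₂ ∨ S δ₁ ≤ 9 * S δ₂) :
    98 / 100 * (1 / δ₁) ≤ W (fun p => (pi1 K p : ℝ)) δ₁ 0 ∧
      W (fun p => (pi1 K p : ℝ)) δ₁ 0 ≤ 1 / δ₁ + CD * ℒ ∧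
      W (fun p => lam f p * pi1 K p) δ₁ 0 ≤ -(99 / 100 * (1 / δ₁)) + (C1 + C5) * ℒ := by
  have hδ₁0 : 0 < δ₁ := by rw [hδ₁]; positivity
  have hδ₁₂ : δ₁ ≤ δ₂ := by rw [hδ₁]; linarith
  have hδ₁1 : δ₁ ≤ 1 := hδ₁₂.trans hδ₂1
  have hX1 : 1 / δ₁ = 500 * (1 / δ₂) := by rw [hδ₁]; field_simp
  have hℒ1 : 1 ≤ ℒ := hB.trans hℒB
  have hPK : ∀ p : ℕ, p.Prime → |((pi1 K p : ℕ) : ℝ)| ≤ Module.finrank ℚ K := fun p hp => by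
    rw [abs_of_nonneg (Nat.cast_nonneg _)]
    exact_mod_cast hPI K p hp
  have hlam := fun (p : ℕ) (hp : p.Prime) => lam_le hf hp
  have sP := W_hasSum (X := fun p => (pi1 K p : ℝ)) (M := Module.finrank ℚ K) hPK hδ₂ 0
  have sFL := W_hasSum (X := fun p => lam f p * pi1 K p) (M := 2 * Module.finrank ℚ K) (fun p hp => by
    rw [abs_mul]
    exact mul_le_mul (hlam p hp) (hPK p hp) (abs_nonneg _) (by norm_num)) hδ₂ 0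
  have tot := (sP.mul_left 2).add sFL
  have tnn := tot.nonneg (fun p => by
    have hp := p.2
    rw [zero_mul, Real.cos_zero]
    have hww := ww_nonneg δ₂ p
    have hx : (0 : ℝ) ≤ (pi1 K p : ℝ) := Nat.cast_nonneg _
    have hl := (abs_le.1 (hlam p hp)).1
    have hfin : 0 ≤ (2 + lam f p) * (pi1 K p : ℝ) := mul_nonneg (by linarith) hx
    refine le_of_le_of_eq (mul_nonneg hfin hww) ?_
    ring)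
  have hd2 : 0 < 1 / δ₂ := by positivity
  have hr2 : 999 / 1000 * (1 / δ₂) ≤ 1 / (δ₂ + η) := by
    rw [← mul_div_assoc, mul_one, div_le_div_iff₀ hδ₂ (by linarith)]
    linarith
  have hr1 : 99 / 100 * (1 / δ₁) ≤ 1 / (δ₁ + η) := by
    rw [← mul_div_assoc, mul_one, div_le_div_iff₀ hδ₁0 (by linarith)]
    rw [hδ₁]
    linarith
  have hcb : C1 * B ≤ C1 * ℒ := mul_le_mul_of_nonneg_left hℒB hC1.le
  have hc5 : C5 ≤ C5 * ℒ := le_mul_of_one_le_right hC5.le hℒ1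
  have hcd : CD * (ld K + 1) ≤ CD * ℒ := mul_le_mul_of_nonneg_left hℒK hCD.le
  have hexp : (C1 + C5 + CD) * ℒ = C1 * ℒ + C5 * ℒ + CD * ℒ := by ring
  have hexp2 : (C1 + C5) * ℒ = C1 * ℒ + C5 * ℒ := by ring
  have hdich : 2 / 3 * (1 / δ₂) ≤ S δ₂ ∨ S δ₁ ≤ 9 * S δ₂ := by
    rcases hS2 δ₁ δ₂ hδ₁0 hδ₁₂ hδ₂1 with h | h
    · left
      refine le_of_eq_of_le ?_ h
      field_simp
    · right; exact h
  have h5 := hS1 δ₁ hδ₁0 hδ₁1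
  rw [hX1] at h5
  have key := arith1 (X2 := 1 / δ₂) (W2 := W (fun p => (pi1 K p : ℝ)) δ₂ 0)
    (FL2 := W (fun p => lam f p * pi1 K p) δ₂ 0)
    (LD2 := (logDeriv F ((3 / 2 + δ₂ : ℝ) + (0 : ℝ) * Complex.I)).re) (S2 := S δ₂) (S1 := S δ₁)
    (W1 := W (fun p => (pi1 K p : ℝ)) δ₁ 0) (C5 := C5) (cb := C1 * B) (e := CD * ℒ) hd2 tnn
    (hE δ₂ 0 hδ₂ hδ₂1) (le_trans (by linarith) (hR δ₂ hδ₂ hδ₂1))
    ((hS1 δ₂ hδ₂ hδ₂1).trans hcd) (h5.trans hcd) (hS0 δ₁ hδ₁0) (by linarith)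
    (by positivity) hC5.le hdich
  have e1 := (abs_le.1 (hE δ₁ 0 hδ₁0 hδ₁1)).2
  have e2 := hR δ₁ hδ₁0 hδ₁1
  refine ⟨?_, ?_, ?_⟩
  · rw [hX1]; linarith [key.1]
  · rw [hX1]; exact key.2
  · rw [hexp2]
    linarith

/-- the final inequality -/
theorem arith2 {X A P1 P2 Q1 Q2 PL n2 B1 B2 Z FL1 FL2 L ℒ c2 cL c3 cE c6 : ℝ} (hX : 0 < X)
    (hA : A ≤ 101 / 100 * X) (hP1 : 98 / 100 * X ≤ P1) (hP2 : 98 / 100 * X ≤ P2)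
    (hQ1 : Q1 ≤ X + c2) (hQ2 : Q2 ≤ X + c2) (hPL : PL ≤ X + cL) (hB1 : n2 * B1 ≤ ℒ) (hB2 : n2 * B2 ≤ ℒ)
    (hZ : Z ≤ X + c3) (hF1 : FL1 ≤ -(99 / 100 * X) + cE) (hF2 : FL2 ≤ -(99 / 100 * X) + cE)
    (hL : -c6 ≤ L)
    (hsm : 2 * c2 + 2 * cL + 6 * ℒ + 4 * c3 + 4 * cE + 4 * c6 ≤ X / 100)
    (h : 0 ≤ A + (P1 + Q1 + n2 * B1) + (P2 + Q2 + n2 * B2) + 2 * (PL + n2 * B1 + n2 * B2) + 4 * Z +
      2 * FL1 + 2 * FL2 - 4 * L - 4 * P1 - 4 * P2) : False := by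
  linarith

theorem arith3 {n C1 C2 C3 C4 C5 C6 CD B k1 k2 t1 t2 tL lg ℒ Cst X X2 A P1 P2 Q1 Q2 PL B1 B2 Z FL1 FL2
    L : ℝ} (hn : 0 ≤ n) (hC1 : 0 < C1) (hC2 : 0 < C2) (hC3 : 0 < C3) (hC4 : 0 < C4) (hC5 : 0 < C5)
    (hC6 : 0 < C6) (hCD : 0 < CD) (hB : 1 ≤ B) (hk1 : 0 ≤ k1) (hk2 : 0 ≤ k2) (ht1 : t1 ≤ 2 * n * k1)
    (ht2 : t2 ≤ 2 * n * k2) (htL : tL ≤ n * k1 + n * k2) (hlg : lg ≤ 2) (hℒ : ℒ = B + k1 + k2)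
    (hCst : Cst = 10 * (C1 + C5 + CD) + 2 * (C2 * (2 * n + 2)) + 2 * (C4 * (n + 2)) + 6 * n ^ 2 +
      8 * C3 + 8 * C6) (hX2 : 0 < X2) (hX : X = 500 * X2) (hsm : 1000 * (Cst * ℒ) ≤ X2)
    (hA : A ≤ 101 / 100 * X) (hP1 : 98 / 100 * X ≤ P1) (hP2 : 98 / 100 * X ≤ P2)
    (hQ1 : Q1 ≤ X + C2 * (t1 + lg)) (hQ2 : Q2 ≤ X + C2 * (t2 + lg)) (hPL : PL ≤ X + C4 * (tL + lg))
    (hB1 : B1 ≤ k1) (hB2 : B2 ≤ k2) (hZ : Z ≤ X + C3 * lg)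
    (hF1 : FL1 ≤ -(99 / 100 * X) + (C1 + C5) * ℒ) (hF2 : FL2 ≤ -(99 / 100 * X) + (C1 + C5) * ℒ)
    (hL : -C6 ≤ L)
    (h : 0 ≤ A + (P1 + Q1 + n ^ 2 * B1) + (P2 + Q2 + n ^ 2 * B2) +
      2 * (PL + n ^ 2 * B1 + n ^ 2 * B2) + 4 * Z +
      2 * FL1 + 2 * FL2 - 4 * L - 4 * P1 - 4 * P2) : False := by
  have hℒ1 : 1 ≤ ℒ := by linarith
  have hlg2 : lg ≤ 2 * ℒ := by linarith
  have i1 : C2 * (t1 + lg) ≤ C2 * (2 * n + 2) * ℒ := by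
    rw [mul_assoc]
    refine mul_le_mul_of_nonneg_left ?_ hC2.le
    have h1 : 2 * n * k1 ≤ 2 * n * ℒ := mul_le_mul_of_nonneg_left (by linarith) (by positivity)
    have h2 : (2 * n + 2) * ℒ = 2 * n * ℒ + 2 * ℒ := by ring
    rw [h2]
    linarith
  have i2 : C2 * (t2 + lg) ≤ C2 * (2 * n + 2) * ℒ := by
    rw [mul_assoc]
    refine mul_le_mul_of_nonneg_left ?_ hC2.le
    have h1 : 2 * n * k2 ≤ 2 * n * ℒ := mul_le_mul_of_nonneg_left (by linarith) (by positivity)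
    have h2 : (2 * n + 2) * ℒ = 2 * n * ℒ + 2 * ℒ := by ring
    rw [h2]
    linarith
  have iL : C4 * (tL + lg) ≤ C4 * (n + 2) * ℒ := by
    rw [mul_assoc]
    refine mul_le_mul_of_nonneg_left ?_ hC4.le
    have h1 : n * (k1 + k2) ≤ n * ℒ := mul_le_mul_of_nonneg_left (by linarith) hn
    have h2 : (n + 2) * ℒ = n * ℒ + 2 * ℒ := by ring
    have h3 : n * (k1 + k2) = n * k1 + n * k2 := by ring
    rw [h2]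
    linarith
  have i3 : C3 * lg ≤ 2 * C3 * ℒ := by
    have := mul_le_mul_of_nonneg_left hlg2 hC3.le
    linarith
  have i6 : C6 ≤ 2 * C6 * ℒ := by
    have h1 : C6 ≤ C6 * ℒ := le_mul_of_one_le_right hC6.le hℒ1
    have h2 : 0 ≤ C6 * ℒ := by positivity
    linarith
  have j1 : n ^ 2 * B1 ≤ n ^ 2 * ℒ := mul_le_mul_of_nonneg_left (by linarith) (by positivity)
  have j2 : n ^ 2 * B2 ≤ n ^ 2 * ℒ := mul_le_mul_of_nonneg_left (by linarith) (by positivity)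
  have hX0 : 0 < X := by linarith
  have hexp : Cst * ℒ = 10 * ((C1 + C5) * ℒ) + 10 * (CD * ℒ) + 2 * (C2 * (2 * n + 2) * ℒ) +
      2 * (C4 * (n + 2) * ℒ) + 6 * (n ^ 2 * ℒ) + 4 * (2 * C3 * ℒ) + 4 * (2 * C6 * ℒ) := by
    rw [hCst]; ring
  have hp1 : 0 ≤ (C1 + C5) * ℒ := by positivity
  have hp2 : 0 ≤ CD * ℒ := by positivity
  exact arith2 (X := X) (n2 := n ^ 2) (ℒ := n ^ 2 * ℒ)
    (c2 := C2 * (2 * n + 2) * ℒ) (cL := C4 * (n + 2) * ℒ) (c3 := 2 * C3 * ℒ) (cE := (C1 + C5) * ℒ)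
    (c6 := 2 * C6 * ℒ) hX0 hA hP1 hP2 (hQ1.trans (add_le_add le_rfl i1))
    (hQ2.trans (add_le_add le_rfl i2)) (hPL.trans (add_le_add le_rfl iL)) j1 j2
    (hZ.trans (add_le_add le_rfl i3)) hF1 hF2 (le_trans (neg_le_neg i6) hL) (by linarith) h

/-- the inequality at one prime -/
theorem shape {l x1 x2 y1 y2 z n2 E1 E2 ww : ℝ} (hww : 0 ≤ ww) (h1 : x1 ^ 2 ≤ x1 + y1 + n2 * E1)
    (h2 : x2 ^ 2 ≤ x2 + y2 + n2 * E2) (h3 : x1 * x2 ≤ z + n2 * E1 + n2 * E2) :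
    0 ≤ l ^ 2 * 1 * ww + (x1 * 1 * ww + y1 * 1 * ww + n2 * (E1 * ww)) +
      (x2 * 1 * ww + y2 * 1 * ww + n2 * (E2 * ww)) +
      2 * (z * 1 * ww + n2 * (E1 * ww) + n2 * (E2 * ww)) + 4 * (1 * 1 * ww) + 2 * (l * x1 * 1 * ww) +
      2 * (l * x2 * 1 * ww) - 4 * (l * 1 * ww) - 4 * (x1 * 1 * ww) - 4 * (x2 * 1 * ww) := by
  have h4 : 0 ≤ l ^ 2 + (x1 + y1 + n2 * E1) + (x2 + y2 + n2 * E2) + 2 * (z + n2 * E1 + n2 * E2) + 4 +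
      2 * (l * x1) + 2 * (l * x2) - 4 * l - 4 * x1 - 4 * x2 := by
    have hsq := sq_nonneg (l + x1 + x2 - 2)
    have he : (l + x1 + x2 - 2) ^ 2 = l ^ 2 + x1 ^ 2 + x2 ^ 2 + 2 * (x1 * x2) + 4 + 2 * (l * x1) +
      2 * (l * x2) - 4 * l - 4 * x1 - 4 * x2 := by ring
    rw [he] at hsq
    linarith
  have h5 := mul_nonneg h4 hww
  refine le_of_le_of_eq h5 ?_
  ring

theorem bd1 {x y n : ℕ} {E : ℝ} (hx : x ≤ n) (h : E = 1 ∨ (E = 0 ∧ x ^ 2 ≤ x + y)) :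
    (x : ℝ) ^ 2 ≤ (x : ℝ) + (y : ℝ) + (n : ℝ) ^ 2 * E := by
  have hx' : (x : ℝ) ≤ n := by exact_mod_cast hx
  have h0 : (0 : ℝ) ≤ x := Nat.cast_nonneg _
  have hy : (0 : ℝ) ≤ y := Nat.cast_nonneg _
  rcases h with h | ⟨h, h1⟩
  · rw [h]; nlinarith
  · rw [h, mul_zero, add_zero]
    exact_mod_cast h1

theorem bd2 {x y z n : ℕ} {E E' : ℝ} (hx : x ≤ n) (hy : y ≤ n)
    (h : E = 1 ∨ (E = 0 ∧ (E' = 1 ∨ (E' = 0 ∧ x * y ≤ z)))) (hE' : 0 ≤ E') :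
    (x : ℝ) * (y : ℝ) ≤ (z : ℝ) + (n : ℝ) ^ 2 * E + (n : ℝ) ^ 2 * E' := by
  have hx' : (x : ℝ) ≤ n := by exact_mod_cast hx
  have hy' : (y : ℝ) ≤ n := by exact_mod_cast hy
  have h0 : (0 : ℝ) ≤ x := Nat.cast_nonneg _
  have hy0 : (0 : ℝ) ≤ y := Nat.cast_nonneg _
  have hz : (0 : ℝ) ≤ z := Nat.cast_nonneg _
  have hm : (x : ℝ) * y ≤ (n : ℝ) ^ 2 := by
    rw [sq]
    exact mul_le_mul hx' hy' hy0 (Nat.cast_nonneg _)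
  have hn2 : (0 : ℝ) ≤ (n : ℝ) ^ 2 * E' := mul_nonneg (by positivity) hE'
  rcases h with h | ⟨h, h' | ⟨h', h1⟩⟩
  · rw [h]; linarith
  · rw [h, h']; linarith
  · rw [h, h', mul_zero, add_zero, add_zero]
    exact_mod_cast h1

theorem ifE {P : Prop} [Decidable P] (ww : ℝ) :
    (if P then ww else 0) = (if P then (1 : ℝ) else 0) * ww := by
  split_ifs
  · rw [one_mul]
  · rw [zero_mul]

open Classical in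
/-- the sum over the primes -/
theorem total (hPI : S_PI) {a b : ℤ} {N : ℕ} [NeZero N]
    {f : CuspForm (Gamma0 N : Subgroup (GL (Fin 2) ℝ)) 2} {w : ℝ} (hf : IsFormOf a b N f w)
    {n : ℕ} {K₁ K₂ T₁ T₂ L : Type} [Field K₁] [NumberField K₁] [Field K₂] [NumberField K₂] [Field T₁]
    [NumberField T₁] [Field T₂] [NumberField T₂] [Field L] [NumberField L]
    (hn₁ : Module.finrank ℚ K₁ = n) (hn₂ : Module.finrank ℚ K₂ = n)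
    (hcnt₁ : ∀ p : ℕ, p.Prime → ¬ (p : ℤ) ∣ NumberField.discr K₁ → pi1 K₁ p ^ 2 ≤ pi1 K₁ p + pi1 T₁ p)
    (hcnt₂ : ∀ p : ℕ, p.Prime → ¬ (p : ℤ) ∣ NumberField.discr K₂ → pi1 K₂ p ^ 2 ≤ pi1 K₂ p + pi1 T₂ p)
    (hcntL : ∀ p : ℕ, p.Prime → ¬ (p : ℤ) ∣ NumberField.discr K₁ → ¬ (p : ℤ) ∣ NumberField.discr K₂ →
      pi1 K₁ p * pi1 K₂ p ≤ pi1 L p) {δ : ℝ} (hδ : 0 < δ) :
    ∃ B₁ B₂ : ℝ, B₁ ≤ ld K₁ ∧ B₂ ≤ ld K₂ ∧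
      0 ≤ W (fun p => lam f p ^ 2) δ 0 +
        (W (fun p => (pi1 K₁ p : ℝ)) δ 0 + W (fun p => (pi1 T₁ p : ℝ)) δ 0 + (n : ℝ) ^ 2 * B₁) +
        (W (fun p => (pi1 K₂ p : ℝ)) δ 0 + W (fun p => (pi1 T₂ p : ℝ)) δ 0 + (n : ℝ) ^ 2 * B₂) +
        2 * (W (fun p => (pi1 L p : ℝ)) δ 0 + (n : ℝ) ^ 2 * B₁ + (n : ℝ) ^ 2 * B₂) +
        4 * W (fun _ => 1) δ 0 + 2 * W (fun p => lam f p * pi1 K₁ p) δ 0 +
        2 * W (fun p => lam f p * pi1 K₂ p) δ 0 - 4 * W (lam f) δ 0 -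
        4 * W (fun p => (pi1 K₁ p : ℝ)) δ 0 - 4 * W (fun p => (pi1 K₂ p : ℝ)) δ 0 := by
  have hPI' : ∀ (K : Type) [Field K] [NumberField K] (p : ℕ), p.Prime →
      |((pi1 K p : ℕ) : ℝ)| ≤ Module.finrank ℚ K := fun K _ _ p hp => by
    rw [abs_of_nonneg (Nat.cast_nonneg _)]
    exact_mod_cast hPI K p hp
  have hlam := fun (p : ℕ) (hp : p.Prime) => lam_le hf hp
  have sA := W_hasSum (X := fun p => lam f p ^ 2) (M := 4) (fun p hp => by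
    rw [abs_pow]
    have := hlam p hp
    nlinarith [abs_nonneg (lam f p)]) hδ 0
  have sP₁ := W_hasSum (X := fun p => (pi1 K₁ p : ℝ)) (hPI' K₁) hδ 0
  have sP₂ := W_hasSum (X := fun p => (pi1 K₂ p : ℝ)) (hPI' K₂) hδ 0
  have sQ₁ := W_hasSum (X := fun p => (pi1 T₁ p : ℝ)) (hPI' T₁) hδ 0
  have sQ₂ := W_hasSum (X := fun p => (pi1 T₂ p : ℝ)) (hPI' T₂) hδ 0
  have sPL := W_hasSum (X := fun p => (pi1 L p : ℝ)) (hPI' L) hδ 0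
  have sZ := W_hasSum (X := fun _ => (1 : ℝ)) (M := 1) (fun p _ => by rw [abs_one]) hδ 0
  have sF₁ := W_hasSum (X := fun p => lam f p * pi1 K₁ p) (M := 2 * Module.finrank ℚ K₁)
    (fun p hp => by
      rw [abs_mul]
      exact mul_le_mul (hlam p hp) (hPI' K₁ p hp) (abs_nonneg _) (by norm_num)) hδ 0
  have sF₂ := W_hasSum (X := fun p => lam f p * pi1 K₂ p) (M := 2 * Module.finrank ℚ K₂)
    (fun p hp => by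
      rw [abs_mul]
      exact mul_le_mul (hlam p hp) (hPI' K₂ p hp) (abs_nonneg _) (by norm_num)) hδ 0
  have sL := W_hasSum (X := lam f) (M := 2) hlam hδ 0
  obtain ⟨B₁, sB₁, hBD₁⟩ := bad_sum (D := (NumberField.discr K₁).natAbs)
    (Int.natAbs_ne_zero.2 (NumberField.discr_ne_zero K₁)) hδ
  obtain ⟨B₂, sB₂, hBD₂⟩ := bad_sum (D := (NumberField.discr K₂).natAbs)
    (Int.natAbs_ne_zero.2 (NumberField.discr_ne_zero K₂)) hδ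
  refine ⟨B₁, B₂, ?_, ?_, ?_⟩
  · refine hBD₁.trans (le_of_eq ?_)
    unfold ld
    rw [Nat.cast_natAbs, Int.cast_abs]
  · refine hBD₂.trans (le_of_eq ?_)
    unfold ld
    rw [Nat.cast_natAbs, Int.cast_abs]
  have t1 := sA.add ((sP₁.add sQ₁).add (sB₁.mul_left ((n : ℝ) ^ 2)))
  have t2 := t1.add ((sP₂.add sQ₂).add (sB₂.mul_left ((n : ℝ) ^ 2)))
  have t3 := t2.add (((sPL.add (sB₁.mul_left ((n : ℝ) ^ 2))).add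
    (sB₂.mul_left ((n : ℝ) ^ 2))).mul_left 2)
  have t4 := t3.add (sZ.mul_left 4)
  have t5 := (t4.add (sF₁.mul_left 2)).add (sF₂.mul_left 2)
  have tot := ((t5.sub (sL.mul_left 4)).sub (sP₁.mul_left 4)).sub (sP₂.mul_left 4)
  refine tot.nonneg fun p => ?_
  have hp := p.2
  rw [zero_mul, Real.cos_zero, ifE (P := (p : ℕ) ∣ (NumberField.discr K₁).natAbs),
    ifE (P := (p : ℕ) ∣ (NumberField.discr K₂).natAbs)]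
  refine shape (ww_nonneg δ p) (bd1 (hn₁ ▸ hPI K₁ p hp) ?_) (bd1 (hn₂ ▸ hPI K₂ p hp) ?_)
    (bd2 (hn₁ ▸ hPI K₁ p hp) (hn₂ ▸ hPI K₂ p hp) ?_ ?_)
  · by_cases hd : (p : ℕ) ∣ (NumberField.discr K₁).natAbs
    · left; rw [if_pos hd]
    · right; exact ⟨by rw [if_neg hd], hcnt₁ p hp (by rwa [Int.natCast_dvd])⟩
  · by_cases hd : (p : ℕ) ∣ (NumberField.discr K₂).natAbs
    · left; rw [if_pos hd]
    · right; exact ⟨by rw [if_neg hd], hcnt₂ p hp (by rwa [Int.natCast_dvd])⟩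
  · by_cases hd : (p : ℕ) ∣ (NumberField.discr K₁).natAbs
    · left; rw [if_pos hd]
    · right
      refine ⟨by rw [if_neg hd], ?_⟩
      by_cases hd' : (p : ℕ) ∣ (NumberField.discr K₂).natAbs
      · left; rw [if_pos hd']
      · right
        exact ⟨by rw [if_neg hd'], hcntL p hp (by rwa [Int.natCast_dvd]) (by rwa [Int.natCast_dvd])⟩
  · split_ifs <;> norm_num

/-- the inequality -/
theorem core4 (hDED : S_DED) (hZETA : S_ZETA) (hRS : S_RS) (hALG : S_ALG) (hALG3 : S_ALG3) (hPI : S_PI)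
    (hEUL : S_EUL) (hDL : S_DL) {C1 : ℝ} (hC1 : 0 < C1) (a b : ℤ) (N : ℕ) [NeZero N]
    (f : CuspForm (Gamma0 N : Subgroup (GL (Fin 2) ℝ)) 2) (w : ℝ) (hab : 4 * a ^ 3 + 27 * b ^ 2 ≠ 0)
    (hf : IsFormOf a b N f w)
    (hEdge : ∃ C : ℝ, 0 < C ∧ ∀ δ : ℝ, 0 < δ → δ ≤ 1 → -C ≤ W (lam f) δ 0) (n : ℕ) :
    ∃ κ : ℝ, 0 < κ ∧ ∀ (K₁ K₂ L : Type) [Field K₁] [NumberField K₁]
    [Field K₂] [NumberField K₂] [Field L] [NumberField L],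
    Module.finrank ℚ K₁ = n → Module.finrank ℚ K₂ = n → DoublyTransitive K₁ → DoublyTransitive K₂ →
    Nonempty ((K₁ ⊗[ℚ] K₂) ≃ₐ[ℚ] L) →
    ∀ (α₁ : HeightOneSpectrum (𝓞 K₁) → Fin 2 → ℂ) (F₁ : ℂ → ℂ)
      (α₂ : HeightOneSpectrum (𝓞 K₂) → Fin 2 → ℂ) (F₂ : ℂ → ℂ),
      IsParameter a b α₁ → IsContinuation α₁ F₁ → IsParameter a b α₂ → IsContinuation α₂ F₂ →
      ∀ B η₁ η₂ : ℝ, 1 ≤ B → 0 ≤ η₁ → 0 ≤ η₂ → η₁ * (B + ld K₁ + ld K₂) ≤ κ →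
        η₂ * (B + ld K₁ + ld K₂) ≤ κ →
        (∀ δ : ℝ, 0 < δ → δ ≤ 1 → 1 / (δ + η₁) - C1 * B ≤
          (logDeriv F₁ ((3 / 2 + δ : ℝ) + (0 : ℝ) * Complex.I)).re) →
        (∀ δ : ℝ, 0 < δ → δ ≤ 1 → 1 / (δ + η₂) - C1 * B ≤
          (logDeriv F₂ ((3 / 2 + δ : ℝ) + (0 : ℝ) * Complex.I)).re) → False := by
  obtain ⟨C2, hC2, k2⟩ := hDED (n ^ 2 - n)
  obtain ⟨C4, hC4, k4⟩ := hDED (n * n)
  obtain ⟨C3, hC3, k3⟩ := hZETA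
  obtain ⟨C5, hC5, k5⟩ := hEUL a b N f w hab hf n
  obtain ⟨C6, hC6, k6⟩ := hEdge
  obtain ⟨CD, hCD, kD⟩ := hDL n
  obtain ⟨δ₀, hδ₀, k7⟩ := hRS a b N f w hab hf (1 / 100) (by norm_num)
  obtain ⟨Cst, hCst⟩ : ∃ Cst : ℝ, Cst = 10 * (C1 + C5 + CD) + 2 * (C2 * (2 * n + 2)) +
    2 * (C4 * (n + 2)) + 6 * n ^ 2 + 8 * C3 + 8 * C6 := ⟨_, rfl⟩
  have hCst0 : 0 < Cst := by rw [hCst]; positivity
  obtain ⟨κ', hκ'⟩ : ∃ κ' : ℝ, κ' = min (δ₀ / 2) (min 1 (1 / (1000 * Cst))) := ⟨_, rfl⟩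
  have hκ0 : 0 < κ' := by
    rw [hκ']
    refine lt_min (by positivity) (lt_min one_pos (by positivity))
  have hκ1 : κ' ≤ 1 := by rw [hκ']; exact (min_le_right _ _).trans (min_le_left _ _)
  have hκ2 : κ' < δ₀ := by rw [hκ']; exact lt_of_le_of_lt (min_le_left _ _) (half_lt_self hδ₀)
  have hκ3 : κ' * (1000 * Cst) ≤ 1 := by
    have h : κ' ≤ 1 / (1000 * Cst) := by
      rw [hκ']; exact (min_le_right _ _).trans (min_le_right _ _)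
    rwa [le_div_iff₀ (by positivity)] at h
  refine ⟨κ' / 100000, by positivity, ?_⟩
  intro K₁ K₂ L _ _ _ _ _ _ hn₁ hn₂ hDT₁ hDT₂ hL α₁ F₁ α₂ F₂ hα₁ hF₁ hα₂ hF₂ B η₁ η₂ hB hη₁ hη₂
    hηκ₁ hηκ₂ hR₁ hR₂
  obtain ⟨T₁, _, _, ⟨e₁⟩⟩ := hDT₁
  obtain ⟨T₂, _, _, ⟨e₂⟩⟩ := hDT₂
  obtain ⟨hdim₁, hld₁, hcnt₁⟩ := hALG K₁ T₁ ⟨e₁⟩
  obtain ⟨hdim₂, hld₂, hcnt₂⟩ := hALG K₂ T₂ ⟨e₂⟩
  obtain ⟨hdimL, hldL, hcntL⟩ := hALG3 K₁ K₂ L hL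
  rw [hn₁] at hdim₁ hld₁
  rw [hn₂] at hdim₂ hld₂
  rw [hn₁, hn₂] at hdimL hldL
  have hT₁ : Module.finrank ℚ T₁ = n ^ 2 - n := by omega
  have hT₂ : Module.finrank ℚ T₂ = n ^ 2 - n := by omega
  have hld0₁ := ld_nonneg K₁
  have hld0₂ := ld_nonneg K₂
  obtain ⟨ℒ, hℒ⟩ : ∃ ℒ : ℝ, ℒ = B + ld K₁ + ld K₂ := ⟨_, rfl⟩
  rw [← hℒ] at hηκ₁ hηκ₂
  have hℒ1 : 1 ≤ ℒ := by rw [hℒ]; linarith
  have hℒ0 : 0 < ℒ := lt_of_lt_of_le one_pos hℒ1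
  obtain ⟨δ₂, hδd⟩ : ∃ δ₂ : ℝ, δ₂ = κ' / ℒ := ⟨_, rfl⟩
  have hδ₂ : 0 < δ₂ := by rw [hδd]; positivity
  have hδκ : δ₂ ≤ κ' := by rw [hδd]; exact div_le_self hκ0.le hℒ1
  have hδ₂1 : δ₂ ≤ 1 := hδκ.trans hκ1
  have hδℒ : δ₂ * ℒ = κ' := by
    rw [hδd]
    field_simp
  have hδL : 1000 * (Cst * ℒ) ≤ 1 / δ₂ := by
    rw [le_div_iff₀ hδ₂]
    calc 1000 * (Cst * ℒ) * δ₂ = κ' * (1000 * Cst) := by rw [← hδℒ]; ring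
      _ ≤ 1 := hκ3
  have hηδ₁ : η₁ ≤ δ₂ / 100000 := by
    have h1 : η₁ ≤ κ' / 100000 / ℒ := by
      rwa [le_div_iff₀ hℒ0]
    rwa [div_right_comm, ← hδd] at h1
  have hηδ₂ : η₂ ≤ δ₂ / 100000 := by
    have h1 : η₂ ≤ κ' / 100000 / ℒ := by
      rwa [le_div_iff₀ hℒ0]
    rwa [div_right_comm, ← hδd] at h1
  obtain ⟨δ₁, hδ₁⟩ : ∃ δ₁ : ℝ, δ₁ = δ₂ / 500 := ⟨_, rfl⟩
  have hδ₁0 : 0 < δ₁ := by rw [hδ₁]; positivity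
  have hδ₁₂ : δ₁ ≤ δ₂ := by rw [hδ₁]; exact div_le_self hδ₂.le (by norm_num)
  have hδ₁1 : δ₁ ≤ 1 := hδ₁₂.trans hδ₂1
  have hX1 : 1 / δ₁ = 500 * (1 / δ₂) := by rw [hδ₁]; field_simp
  have hX2 : 0 < 1 / δ₂ := by positivity
  have hCE : 1000 * ((C1 + C5 + CD) * ℒ) ≤ 1 / δ₂ := by
    refine le_trans (mul_le_mul_of_nonneg_left (mul_le_mul_of_nonneg_right ?_ hℒ0.le) (by norm_num)) hδL
    have h1 : 0 ≤ 2 * (C2 * (2 * (n : ℝ) + 2)) := by positivity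
    have h2 : 0 ≤ 2 * (C4 * ((n : ℝ) + 2)) := by positivity
    have h3 : 0 ≤ 6 * (n : ℝ) ^ 2 := by positivity
    rw [hCst]
    linarith
  obtain ⟨-, -, -, k5₁⟩ := k5 K₁ hn₁ α₁ F₁ hα₁ hF₁
  obtain ⟨-, -, -, k5₂⟩ := k5 K₂ hn₂ α₂ F₂ hα₂ hF₂
  obtain ⟨S₁, sn₁, sa₁, sd₁⟩ := kD K₁ hn₁
  obtain ⟨S₂, sn₂, sa₂, sd₂⟩ := kD K₂ hn₂
  obtain ⟨p1, -, f1⟩ := step1 hPI hf (K := K₁) (F := F₁) (ℒ := ℒ) hC1 hC5 hCD hB hη₁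
    (by rw [hℒ]; linarith) (by rw [hℒ]; linarith) hδ₂ hδ₂1 hδ₁ hηδ₁ hCE k5₁ hR₁ sn₁ sa₁ sd₁
  obtain ⟨p2, -, f2⟩ := step1 hPI hf (K := K₂) (F := F₂) (ℒ := ℒ) hC1 hC5 hCD hB hη₂
    (by rw [hℒ]; linarith) (by rw [hℒ]; linarith) hδ₂ hδ₂1 hδ₁ hηδ₂ hCE k5₂ hR₂ sn₂ sa₂ sd₂
  have hd0 : δ₁ / (δ₁ ^ 2 + (0 : ℝ) ^ 2) = 1 / δ₁ := by
    field_simp
    ring
  have hlog : Real.log (|(0 : ℝ)| + 3) ≤ 2 := by
    rw [abs_zero, zero_add]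
    have h1 : Real.log 3 ≤ 3 - 1 := Real.log_le_sub_one_of_pos (by norm_num)
    exact h1.trans (by norm_num)
  have b1 : W (fun p => lam f p ^ 2) δ₁ 0 ≤ 101 / 100 * (1 / δ₁) := by
    refine (k7 δ₁ hδ₁0 (lt_of_le_of_lt (hδ₁₂.trans hδκ) hκ2)).trans (le_of_eq ?_)
    ring
  have q1 := k2 T₁ hT₁ δ₁ 0 hδ₁0 hδ₁1
  have q2 := k2 T₂ hT₂ δ₁ 0 hδ₁0 hδ₁1
  have qL := k4 L hdimL δ₁ 0 hδ₁0 hδ₁1
  have z0 := k3 δ₁ 0 hδ₁0 hδ₁1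
  have l0 := k6 δ₁ hδ₁0 hδ₁1
  rw [hd0] at q1 q2 qL z0
  obtain ⟨B₁, B₂, hB₁, hB₂, tnn⟩ := total hPI hf hn₁ hn₂ hcnt₁ hcnt₂ hcntL hδ₁0
  exact arith3 (n := (n : ℝ)) (Nat.cast_nonneg _) hC1 hC2 hC3 hC4 hC5 hC6 hCD hB hld0₁ hld0₂ hld₁ hld₂
    hldL hlog hℒ hCst hX2 hX1 hδL b1 p1 p2 q1 q2 qL hB₁ hB₂ z0 f1 f2 l0 tnn

theorem t_CORE3 : S_CORE3 := by
  intro hDED hZETA hRS hALG hALG3 hPI hEUL hLF hDL C1 hC1 a b N _ f w hab hf n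
  refine core4 hDED hZETA hRS hALG hALG3 hPI hEUL hDL hC1 a b N f w hab hf ?_ n
  obtain ⟨C6, hC6, k6⟩ := hLF a b N f w hab hf
  refine ⟨C6 * Real.log (|(0 : ℝ)| + 3), mul_pos hC6 (lt_of_lt_of_le one_pos (log3 0)),
    fun δ h0 h1 => k6 δ 0 h0 h1⟩

end Pool.Agent.U122.ZF
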