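import Pool.Agent.U122.ZF.CORE3
import Pool.Agent.U309.ZF.Stm4

set_option autoImplicit false

/-! Project ZF3, package CORE4. -/

namespace Pool.Agent.U122.ZF

open Pool.Agent.U309.ZF

theorem t_CORE4 : S_CORE4 := by
  intro hDED hZETA hRS hALG hALG3 hPI hEUL hDL C1 hC1 a b N _ f w hab hf hE n
  exact core4 hDED hZETA hRS hALG hALG3 hPI hEUL hDL hC1 a b N f w hab hf hE n

end Pool.Agent.U122.ZF
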